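import Mathlib

/-!
# Orbits of permutations and the Euler inequality for combinatorial maps
-/

set_option autoImplicit false
set_option linter.unusedVariables false
set_option linter.unusedSectionVars false

namespace Pool.Agent.V11120.Maps

open Equiv Module

/-- The number of orbits (cycles, fixed points included) of a permutation. -/
noncomputable def numOrbits {D : Type} (σ : Perm D) : ℕ :=
  Nat.card (Quotient (Perm.SameCycle.setoid σ))

section general

variable {D : Type} [Fintype D]

/-- functions constant on the orbits of `σ` -/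
def Fix (σ : Perm D) : Submodule ℚ (D → ℚ) where
  carrier := {b | ∀ d, b (σ d) = b d}
  add_mem' := by intro a b ha hb d; simp [ha d, hb d]
  zero_mem' := by intro d; rfl
  smul_mem' := by intro c x hx d; simp [hx d]

theorem mem_Fix {σ : Perm D} {b : D → ℚ} : b ∈ Fix σ ↔ ∀ d, b (σ d) = b d := Iff.rfl

theorem Fix_zpow {σ : Perm D} {b : D → ℚ} (hb : b ∈ Fix σ) (k : ℤ) (d : D) :
    b ((σ ^ k) d) = b d := by
  have h1 : ∀ d, b (σ d) = b d := hb
  induction k using Int.induction_on generalizing d with
  | zero => simp
  | succ n ih =>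
    rw [zpow_add, zpow_one, Perm.mul_apply, ih, h1]
  | pred n ih =>
    rw [zpow_sub, zpow_one, Perm.mul_apply, ih]
    have h2 := h1 (σ⁻¹ d)
    have h3 : σ (σ⁻¹ d) = d := σ.apply_symm_apply d
    rw [h3] at h2
    exact h2.symm

noncomputable def fixEquiv (σ : Perm D) :
    (Quotient (Perm.SameCycle.setoid σ) → ℚ) ≃ₗ[ℚ] Fix σ :=
  LinearEquiv.ofBijective
    ({ toFun := fun f => ⟨fun d => f (Quotient.mk _ d), by
          intro d
          have : (Quotient.mk (Perm.SameCycle.setoid σ) (σ d)) = Quotient.mk _ d := by
            apply Quotient.sound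
            exact ⟨-1, by simp⟩
          simp only [this]⟩
       map_add' := by intro f g; rfl
       map_smul' := by intro c f; rfl } : (Quotient (Perm.SameCycle.setoid σ) → ℚ) →ₗ[ℚ] Fix σ)
    (by
      constructor
      · intro f g h
        funext q
        induction q using Quotient.ind with
        | _ d => exact congrFun (congrArg Subtype.val h) d
      · intro b
        refine ⟨fun q => Quotient.lift b.1 (fun x y hxy => ?_) q, ?_⟩
        · obtain ⟨k, hk⟩ := hxy
          rw [← hk, Fix_zpow b.2]
        · rfl)

theorem finrank_Fix (σ : Perm D) : finrank ℚ (Fix σ) = numOrbits σ := by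
  rw [← (fixEquiv σ).finrank_eq]
  have : Fintype (Quotient (Perm.SameCycle.setoid σ)) := Fintype.ofFinite _
  rw [Module.finrank_fintype_fun_eq_card, numOrbits, Nat.card_eq_fintype_card]

/-- functions that change sign under `α` -/
def Anti (α : Perm D) : Submodule ℚ (D → ℚ) where
  carrier := {b | ∀ d, b (α d) = - b d}
  add_mem' := by intro a b ha hb d; simp [ha d, hb d]; ring
  zero_mem' := by intro d; simp
  smul_mem' := by intro c x hx d; simp [hx d]

theorem mem_Anti {α : Perm D} {b : D → ℚ} : b ∈ Anti α ↔ ∀ d, b (α d) = - b d := Iff.rfl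

theorem finrank_Anti (α : Perm D) : finrank ℚ (Anti α) + numOrbits α ≤ Fintype.card D := by
  rw [← finrank_Fix, ← Module.finrank_fintype_fun_eq_card ℚ]
  have h := Submodule.finrank_sup_add_finrank_inf_eq (Anti α) (Fix α)
  have h0 : Anti α ⊓ Fix α = ⊥ := by
    rw [eq_bot_iff]
    rintro b ⟨h1, h2⟩
    rw [Submodule.mem_bot]
    funext d
    have e1 : b (α d) = - b d := h1 d
    have e2 : b (α d) = b d := h2 d
    have : b d = 0 := by linarith
    simpa using this
  rw [h0, finrank_bot, add_zero] at h
  rw [← h]
  exact Submodule.finrank_le _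

/-- the difference of a function along the edges -/
def dif (α : Perm D) : (D → ℚ) →ₗ[ℚ] (D → ℚ) where
  toFun g := fun d => g d - g (α d)
  map_add' := by intro f g; funext d; simp; ring
  map_smul' := by intro c f; funext d; simp; ring

theorem dif_apply (α : Perm D) (g : D → ℚ) (d : D) : dif α g d = g d - g (α d) := rfl

theorem dif_anti {α : Perm D} (hα : ∀ d, α (α d) = d) (g : D → ℚ) : dif α g ∈ Anti α := by
  intro d
  simp only [dif_apply, hα]
  ring

theorem orth {σ α : Perm D} (hα : ∀ d, α (α d) = d) {g h : D → ℚ} (hg : g ∈ Fix σ)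
    (hh : h ∈ Fix (σ * α)) : ∑ d, dif α g d * dif α h d = 0 := by
  have e1 : ∀ d, h (α d) = h (σ d) := by
    intro d
    have := hh (α d)
    simp only [Perm.mul_apply, hα] at this
    exact this.symm
  have e2 : ∑ d, g d * h (α d) = ∑ d, g d * h d := by
    calc ∑ d, g d * h (α d) = ∑ d, g (σ d) * h (σ d) := by
          refine Finset.sum_congr rfl fun d _ => ?_
          rw [e1, hg d]
      _ = ∑ d, g d * h d := Equiv.sum_comp σ (fun d => g d * h d)
  have e3 : ∑ d, g (α d) * h (α d) = ∑ d, g d * h d := Equiv.sum_comp α (fun d => g d * h d)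
  have e4 : ∑ d, g (α d) * h d = ∑ d, g d * h (α d) := by
    have := Equiv.sum_comp α (fun d => g (α d) * h d)
    simp only [hα] at this
    exact this.symm
  have e5 : ∀ d, dif α g d * dif α h d = g d * h d - g d * h (α d) - g (α d) * h d
      + g (α d) * h (α d) := by
    intro d; simp only [dif_apply]; ring
  rw [Finset.sum_congr rfl (fun d _ => e5 d)]
  rw [Finset.sum_add_distrib, Finset.sum_sub_distrib, Finset.sum_sub_distrib, e4, e3, e2]
  ring

/-- The Euler inequality `vertices + faces ≤ edges + 2` for a connected map (with the number of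
edges replaced by the number of darts minus the number of orbits of `α`). -/
theorem euler_le_card {σ α : Perm D} (hα : ∀ d, α (α d) = d)
    (hconn : ∀ s : Set D, s.Nonempty → (∀ d ∈ s, σ d ∈ s ∧ α d ∈ s) → s = Set.univ) :
    numOrbits σ + numOrbits (σ * α) + numOrbits α ≤ Fintype.card D + 2 := by
  -- functions invariant under everything are constant
  have hconst : ∀ f : D → ℚ, (∀ d, f (σ d) = f d) → (∀ d, f (α d) = f d) →
      ∀ d d', f d = f d' := by
    intro f h1 h2 d d'
    have := hconn {e | f e = f d'} ⟨d', rfl⟩ (by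
      intro e he
      exact ⟨(h1 e).trans he, (h2 e).trans he⟩)
    have hd : d ∈ {e | f e = f d'} := by rw [this]; trivial
    exact hd
  have key : ∀ τ : Perm D, (∀ f : D → ℚ, (∀ d, f (τ d) = f d) → (∀ d, f (α d) = f d) →
      ∀ d d', f d = f d') →
      numOrbits τ ≤ finrank ℚ (Submodule.map (dif α) (Fix τ)) + 1 := by
    intro τ hτ
    rw [← finrank_Fix]
    have h1 := LinearMap.finrank_range_add_finrank_ker ((dif α).domRestrict (Fix τ))
    have h2 : LinearMap.range ((dif α).domRestrict (Fix τ)) = Submodule.map (dif α) (Fix τ) := by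
      rw [LinearMap.range_domRestrict]
    have h3 : finrank ℚ (LinearMap.ker ((dif α).domRestrict (Fix τ))) ≤ 1 := by
      rcases isEmpty_or_nonempty D with hD | ⟨⟨d0⟩⟩
      · have : Subsingleton (Fix τ) := ⟨fun a b => Subtype.ext (funext fun d => (hD.false d).elim)⟩
        have : Subsingleton (LinearMap.ker ((dif α).domRestrict (Fix τ))) := inferInstance
        rw [Module.finrank_zero_of_subsingleton]
        exact zero_le_one
      · refine finrank_le_one ⟨⟨fun _ => 1, fun _ => rfl⟩, ?_⟩ ?_
        · rw [LinearMap.mem_ker, LinearMap.domRestrict_apply]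
          funext d
          simp [dif_apply]
        · rintro ⟨⟨f, hf⟩, hk⟩
          refine ⟨f d0, ?_⟩
          apply Subtype.ext
          apply Subtype.ext
          funext d
          have hk' : ∀ d, f (α d) = f d := by
            intro d
            rw [LinearMap.mem_ker, LinearMap.domRestrict_apply] at hk
            have := congrFun hk d
            simp only [dif_apply, Pi.zero_apply] at this
            linarith
          have := hτ f hf hk' d0 d
          simpa using this
    rw [h2] at h1
    omega
  have k1 := key σ hconst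
  have k2 := key (σ * α) (by
    intro f h1 h2 d d'
    refine hconst f ?_ h2 d d'
    intro e
    have := h1 (α e)
    simp only [Perm.mul_apply, hα] at this
    rw [this, h2])
  have hdisj : Submodule.map (dif α) (Fix σ) ⊓ Submodule.map (dif α) (Fix (σ * α)) = ⊥ := by
    rw [eq_bot_iff]
    rintro b ⟨⟨g, hg, hgb⟩, ⟨h, hh, hhb⟩⟩
    rw [Submodule.mem_bot]
    have := orth hα hg hh
    rw [hgb, hhb] at this
    have h0 := (Finset.sum_eq_zero_iff_of_nonneg (fun d _ => mul_self_nonneg (b d))).1 this
    funext d
    have := h0 d (Finset.mem_univ d)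
    simpa using this
  have h4 := Submodule.finrank_sup_add_finrank_inf_eq (Submodule.map (dif α) (Fix σ))
    (Submodule.map (dif α) (Fix (σ * α)))
  rw [hdisj, finrank_bot, add_zero] at h4
  have h5 : Submodule.map (dif α) (Fix σ) ⊔ Submodule.map (dif α) (Fix (σ * α)) ≤ Anti α := by
    rw [sup_le_iff]
    constructor
    · rintro _ ⟨g, _, rfl⟩; exact dif_anti hα g
    · rintro _ ⟨g, _, rfl⟩; exact dif_anti hα g
  have h6 := Submodule.finrank_mono h5
  have h7 := finrank_Anti α
  omega

end general

section orbits

variable {D : Type} [Finite D]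

theorem mem_pow {σ : Perm D} {T : Set D} (hT : ∀ x ∈ T, σ x ∈ T) {a : D} (ha : a ∈ T) (i : ℕ) :
    (σ ^ i) a ∈ T := by
  induction i with
  | zero => simpa using ha
  | succ n ih =>
    rw [pow_succ', Perm.mul_apply]
    exact hT _ ih

/-- closed sets absorb orbits -/
theorem mem_of_sameCycle {σ : Perm D} {T : Set D} (hT : ∀ x ∈ T, σ x ∈ T) {a b : D}
    (ha : a ∈ T) (h : σ.SameCycle a b) : b ∈ T := by
  obtain ⟨i, rfl⟩ := h.exists_nat_pow_eq
  exact mem_pow hT ha i

/-- Composing with a transposition of two elements of one orbit splits the orbit. -/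
theorem split {φ : Perm D} [DecidableEq D] {a b : D} (hab : a ≠ b) (h : φ.SameCycle a b) :
    ¬ (swap a b * φ).SameCycle a b := by
  obtain ⟨i, hi⟩ := h.symm.exists_nat_pow_eq
  have hex : ∃ k, 0 < k ∧ (φ ^ k) b = a := by
    refine ⟨i, ?_, hi⟩
    rcases Nat.eq_zero_or_pos i with h0 | h0
    · subst h0; exact absurd hi.symm (by simpa using hab)
    · exact h0
  classical
  set k := Nat.find hex with hk
  obtain ⟨hk0, hka⟩ := Nat.find_spec hex
  have hmin : ∀ j, j < k → ¬ (0 < j ∧ (φ ^ j) b = a) := fun j hj => Nat.find_min hex hj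
  set T : Set D := {x | ∃ j < k, (φ ^ j) b = x} with hT
  have hb : b ∈ T := ⟨0, hk0, by simp⟩
  have hclosed : ∀ x ∈ T, (swap a b * φ) x ∈ T := by
    rintro x ⟨j, hj, rfl⟩
    have e0 : (swap a b * φ) ((φ ^ j) b) = swap a b ((φ ^ (j + 1)) b) := by
      rw [pow_succ']; rfl
    rw [e0]
    rcases Nat.lt_or_ge (j + 1) k with h1 | h1
    · have ha' : (φ ^ (j + 1)) b ≠ a := fun h => hmin (j + 1) h1 ⟨Nat.succ_pos _, h⟩
      have hb' : (φ ^ (j + 1)) b ≠ b := by
        intro h2
        apply hmin (k - (j + 1)) (by omega)
        refine ⟨by omega, ?_⟩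
        have : (φ ^ (k - (j + 1))) ((φ ^ (j + 1)) b) = a := by
          rw [← Perm.mul_apply, ← pow_add]
          rw [show k - (j + 1) + (j + 1) = k by omega]
          exact hka
        rwa [h2] at this
      rw [swap_apply_of_ne_of_ne ha' hb']
      exact ⟨j + 1, h1, rfl⟩
    · have : j + 1 = k := by omega
      rw [this, hka, swap_apply_left]
      exact hb
  intro hs
  obtain ⟨j, hj, hja⟩ := mem_of_sameCycle hclosed hb hs.symm
  rcases Nat.eq_zero_or_pos j with h0 | h0
  · subst h0; exact hab (by simpa using hja.symm)
  · exact hmin j hj ⟨h0, hja⟩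

theorem sameCycle_of_swap {φ : Perm D} [DecidableEq D] {a b : D} (h : φ.SameCycle a b) {x y : D}
    (hxy : (swap a b * φ).SameCycle x y) : φ.SameCycle x y := by
  have hstep : ∀ z ∈ {z | φ.SameCycle x z}, (swap a b * φ) z ∈ {z | φ.SameCycle x z} := by
    intro z hz
    rw [Perm.mul_apply]
    have h1 : φ.SameCycle x (φ z) := Perm.sameCycle_apply_right.2 hz
    show φ.SameCycle x (swap a b (φ z))
    by_cases ha : φ z = a
    · rw [ha, swap_apply_left]
      rw [ha] at h1
      exact h1.trans h
    · by_cases hb : φ z = b
      · rw [hb, swap_apply_right]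
        rw [hb] at h1
        exact h1.trans h.symm
      · rw [swap_apply_of_ne_of_ne ha hb]
        exact h1
  exact mem_of_sameCycle hstep (Perm.SameCycle.refl _ _) hxy

theorem numOrbits_swap {φ : Perm D} [DecidableEq D] {a b : D} (hab : a ≠ b)
    (h : φ.SameCycle a b) : numOrbits φ + 1 ≤ numOrbits (swap a b * φ) := by
  classical
  haveI : Fintype (Quotient (Perm.SameCycle.setoid φ)) := Fintype.ofFinite _
  haveI : Fintype (Quotient (Perm.SameCycle.setoid (swap a b * φ))) := Fintype.ofFinite _
  rw [numOrbits, numOrbits, Nat.card_eq_fintype_card, Nat.card_eq_fintype_card]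
  let q : Quotient (Perm.SameCycle.setoid (swap a b * φ)) → Quotient (Perm.SameCycle.setoid φ) :=
    Quotient.map' id (fun x y hxy => sameCycle_of_swap h hxy)
  have hsurj : Function.Surjective q := by
    intro z
    induction z using Quotient.ind with
    | _ d => exact ⟨Quotient.mk _ d, rfl⟩
  have hninj : ¬ Function.Injective q := by
    intro hinj
    have : q (Quotient.mk _ a) = q (Quotient.mk _ b) := Quotient.sound h
    exact split hab h (Quotient.exact (hinj this))
  exact Fintype.card_lt_of_surjective_not_injective q hsurj hninj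

/-- number of orbits of a fixed-point-free involution -/
theorem card_eq_two_mul [Fintype D] {α : Perm D} (hα : ∀ d, α (α d) = d) (hne : ∀ d, α d ≠ d) :
    Fintype.card D = 2 * numOrbits α := by
  classical
  have : Fintype (Quotient (Perm.SameCycle.setoid α)) := Fintype.ofFinite _
  rw [numOrbits, Nat.card_eq_fintype_card]
  have h1 : ∀ a b : D, α.SameCycle a b ↔ b = a ∨ b = α a := by
    intro a b
    constructor
    · intro h
      have : b ∈ ({a, α a} : Set D) := by
        refine mem_of_sameCycle (T := {a, α a}) ?_ (by simp) h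
        rintro x (rfl | rfl)
        · simp
        · simp [hα]
      simpa using this
    · rintro (rfl | rfl)
      · exact Perm.SameCycle.refl _ _
      · exact Perm.sameCycle_apply_right.2 (Perm.SameCycle.refl _ _)
  have h2 : ∀ q : Quotient (Perm.SameCycle.setoid α),
      (Finset.univ.filter fun d : D => (Quotient.mk _ d : Quotient (Perm.SameCycle.setoid α)) = q).card
        = 2 := by
    intro q
    induction q using Quotient.ind with
    | _ a =>
      have : (Finset.univ.filter fun d : D =>
          (Quotient.mk _ d : Quotient (Perm.SameCycle.setoid α)) = Quotient.mk _ a) = {a, α a} := by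
        ext d
        simp only [Finset.mem_filter, Finset.mem_univ, true_and, Finset.mem_insert,
          Finset.mem_singleton]
        rw [Quotient.eq]
        constructor
        · intro h; exact (h1 a d).1 (Perm.SameCycle.symm h)
        · intro h; exact Perm.SameCycle.symm ((h1 a d).2 h)
      rw [this, Finset.card_pair (hne a).symm]
  rw [← Finset.card_univ, Finset.card_eq_sum_card_fiberwise
    (f := fun d => (Quotient.mk _ d : Quotient (Perm.SameCycle.setoid α)))
    (t := Finset.univ) (fun _ _ => Finset.mem_coe.2 (Finset.mem_univ _))]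
  rw [Finset.sum_congr rfl (fun q _ => h2 q)]
  simp [mul_comm]

/-- The Euler inequality `vertices + faces ≤ edges + 2` for a connected map. -/
theorem euler_le [Fintype D] {σ α : Perm D} (hα : ∀ d, α (α d) = d) (hne : ∀ d, α d ≠ d)
    (hconn : ∀ s : Set D, s.Nonempty → (∀ d ∈ s, σ d ∈ s ∧ α d ∈ s) → s = Set.univ) :
    numOrbits σ + numOrbits (σ * α) ≤ numOrbits α + 2 := by
  have h1 := euler_le_card hα hconn
  have h2 := card_eq_two_mul hα hne
  omega

/-- In a planar map, if two darts `a`, `b` at one vertex lie on the same face (have the same face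
to their right), then there is a nontrivial set of edges that meets the other edges only at this
vertex. -/
theorem exists_cut [Fintype D] {σ α : Perm D} (hα : ∀ d, α (α d) = d)
    (hne : ∀ d, α d ≠ d) (hpl : numOrbits α + 2 ≤ numOrbits σ + numOrbits (σ * α))
    {a b : D} (hab : a ≠ b) (h1 : σ.SameCycle a b) (h2 : (σ * α).SameCycle a b) :
    ∃ A : Set D, A.Nonempty ∧ A ≠ Set.univ ∧ (∀ e ∈ A, α e ∈ A) ∧
      (∀ e ∈ A, ¬ σ.SameCycle a e → σ e ∈ A) := by
  classical
  by_contra hcon
  have hconn : ∀ s : Set D, s.Nonempty → (∀ d ∈ s, (swap a b * σ) d ∈ s ∧ α d ∈ s) →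
      s = Set.univ := by
    intro s hs hcl
    by_contra hne'
    apply hcon
    refine ⟨s, hs, hne', fun e he => (hcl e he).2, ?_⟩
    intro e he hae
    have h3 := (hcl e he).1
    rw [Perm.mul_apply, swap_apply_of_ne_of_ne] at h3
    · exact h3
    · intro h4
      apply hae
      have : σ.SameCycle a (σ e) := by rw [h4]
      exact Perm.sameCycle_apply_right.1 this
    · intro h4
      apply hae
      have : σ.SameCycle a (σ e) := by rw [h4]; exact h1
      exact Perm.sameCycle_apply_right.1 this
  have h3 := euler_le hα hne hconn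
  have h4 := numOrbits_swap hab h1
  have h5 := numOrbits_swap hab h2
  rw [← mul_assoc] at h5
  omega

end orbits

end Pool.Agent.V11120.Maps
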