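import Mathlib

/-!
# Independent sets in sparse graphs
-/

set_option autoImplicit false
set_option linter.unusedVariables false

namespace Pool.Agent.V11120.Maps

open Finset

theorem turan_bound {V : Type} [Fintype V] [DecidableEq V] (G : SimpleGraph V)
    [DecidableRel G.Adj] {r : ℕ} (hr : 0 < r) (cf : G.CliqueFree (r + 1)) :
    2 * r * #G.edgeFinset ≤ (r - 1) * (Fintype.card V) ^ 2 := by
  obtain ⟨H, _, maxH⟩ := SimpleGraph.exists_isTuranMaximal (V := V) hr
  have h1 : #G.edgeFinset ≤ #H.edgeFinset := by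
    convert! maxH.2 cf
  have h2 : #H.edgeFinset = #(SimpleGraph.turanGraph (Fintype.card V) r).edgeFinset := by
    rw [((SimpleGraph.isTuranMaximal_iff_nonempty_iso_turanGraph hr).mp maxH).some.card_edgeFinset_eq]
  have h3 := SimpleGraph.mul_card_edgeFinset_turanGraph_le (n := Fintype.card V) (r := r)
  rw [← h2] at h3
  exact le_trans (Nat.mul_le_mul_left _ h1) h3

/-- A graph with `N` vertices and at most `k * N` edges has an independent set with at least
`N / (2 * k + 1)` vertices. -/
theorem exists_indep {V : Type} [Fintype V] [DecidableEq V] (H : SimpleGraph V)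
    [DecidableRel H.Adj] (k : ℕ) (hk : #H.edgeFinset ≤ k * Fintype.card V) :
    ∃ S : Finset V, H.IsIndepSet (S : Set V) ∧ Fintype.card V ≤ (2 * k + 1) * #S := by
  classical
  set N := Fintype.card V with hN
  by_contra hcon
  push Not at hcon
  rcases Nat.eq_zero_or_pos N with h0 | h0
  · have := hcon ∅ (by simp)
    omega
  -- r = the largest size with (2k+1) * r < N
  obtain ⟨r, hr⟩ : ∃ r, r = (N - 1) / (2 * k + 1) := ⟨_, rfl⟩
  have hrN : (2 * k + 1) * r < N := by
    have := Nat.mul_div_le (N - 1) (2 * k + 1)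
    rw [← hr] at this
    omega
  have hbig : ∀ S : Finset V, H.IsIndepSet (S : Set V) → #S ≤ r := by
    intro S hS
    have := hcon S hS
    rw [hr, Nat.le_div_iff_mul_le (by omega)]
    rw [mul_comm]
    omega
  have hr0 : 0 < r := by
    obtain ⟨v⟩ : Nonempty V := Fintype.card_pos_iff.1 h0
    have := hbig {v} (by simp)
    rw [card_singleton] at this
    exact this
  have cf : Hᶜ.CliqueFree (r + 1) := by
    intro S hS
    have h1 : H.IsIndepSet (S : Set V) := by
      rw [← SimpleGraph.isClique_compl]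
      exact hS.1
    have := hbig S h1
    have := hS.2
    omega
  have h1 := turan_bound Hᶜ hr0 cf
  have h2 : N.choose 2 ≤ #H.edgeFinset + #(Hᶜ).edgeFinset := by
    rw [← SimpleGraph.card_edgeFinset_top_eq_card_choose_two]
    refine le_trans (card_le_card ?_) (card_union_le _ _)
    intro e he
    rw [mem_union, SimpleGraph.mem_edgeFinset, SimpleGraph.mem_edgeFinset]
    rw [SimpleGraph.mem_edgeFinset] at he
    induction e using Sym2.ind with
    | _ x y =>
      rw [SimpleGraph.mem_edgeSet] at he ⊢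
      rw [SimpleGraph.mem_edgeSet, SimpleGraph.compl_adj]
      by_cases h : H.Adj x y
      · exact Or.inl h
      · exact Or.inr ⟨he.ne, h⟩
  rw [← hN] at h1
  have h3 : 2 * N.choose 2 = N * (N - 1) := by
    rw [Nat.choose_two_right]
    exact Nat.mul_div_cancel' (Nat.even_mul_pred_self N).two_dvd
  -- 2 r |E(Hᶜ)| ≤ (r-1) N², 2|E(Hᶜ)| ≥ N(N-1) - 2kN
  obtain ⟨M, hM⟩ : ∃ M, N = M + 1 := ⟨N - 1, by omega⟩
  obtain ⟨q, hq⟩ : ∃ q, r = q + 1 := ⟨r - 1, by omega⟩
  have h4 : N * M ≤ 2 * #(Hᶜ).edgeFinset + 2 * (k * N) := by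
    have : N * (N - 1) = N * M := by rw [hM]; simp
    rw [this] at h3
    omega
  have h5 : 2 * r * #(Hᶜ).edgeFinset ≤ q * N ^ 2 := by
    have : r - 1 = q := by omega
    rw [this] at h1
    exact h1
  have h6 : r * (N * M) ≤ q * N ^ 2 + r * (2 * (k * N)) := by
    calc r * (N * M) ≤ r * (2 * #(Hᶜ).edgeFinset + 2 * (k * N)) := Nat.mul_le_mul_left _ h4
      _ = 2 * r * #(Hᶜ).edgeFinset + r * (2 * (k * N)) := by ring
      _ ≤ _ := Nat.add_le_add_right h5 _
  have h7 : N * (r * M) ≤ N * (q * N + r * (2 * k)) := by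
    calc N * (r * M) = r * (N * M) := by ring
      _ ≤ _ := h6
      _ = _ := by ring
  have h8 := Nat.le_of_mul_le_mul_left h7 h0
  have h9 : r * N ≤ q * N + r * (2 * k + 1) := by
    have : r * N = r * M + r := by rw [hM]; ring
    rw [this]
    calc r * M + r ≤ q * N + r * (2 * k) + r := Nat.add_le_add_right h8 _
      _ = _ := by ring
  have h10 : r * N = q * N + N := by rw [hq]; ring
  have h11 : N ≤ r * (2 * k + 1) := by omega
  rw [mul_comm] at h11
  omega

end Pool.Agent.V11120.Maps
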