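import Pool.Agent.V11120.Maps.Basic
import Pool.Agent.V11120.Maps.Turan

/-!
# The Euler inequality for maps with several components, first returns, Mantel's theorem
-/

set_option autoImplicit false
set_option linter.unusedVariables false
set_option linter.unusedSectionVars false

namespace Pool.Agent.V11120.Maps

open Equiv Module

/-- The Euler inequality for a map with at most `card R` components. -/
theorem euler_le_comp {D R : Type} [Fintype D] [Fintype R] {σ α : Perm D} (hα : ∀ d, α (α d) = d)
    (reg : D → R) (hreg : Function.Surjective reg)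
    (hinv : ∀ f : D → ℚ, (∀ d, f (σ d) = f d) → (∀ d, f (α d) = f d) →
      ∀ d d', reg d = reg d' → f d = f d') :
    numOrbits σ + numOrbits (σ * α) + numOrbits α ≤ Fintype.card D + 2 * Fintype.card R := by
  obtain ⟨s, hs⟩ := hreg.hasRightInverse
  have key : ∀ τ : Perm D, (∀ f : D → ℚ, (∀ d, f (τ d) = f d) → (∀ d, f (α d) = f d) →
      ∀ d d', reg d = reg d' → f d = f d') →
      numOrbits τ ≤ finrank ℚ (Submodule.map (dif α) (Fix τ)) + Fintype.card R := by
    intro τ hτ
    rw [← finrank_Fix]
    have h1 := LinearMap.finrank_range_add_finrank_ker ((dif α).domRestrict (Fix τ))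
    have h2 : LinearMap.range ((dif α).domRestrict (Fix τ)) = Submodule.map (dif α) (Fix τ) := by
      rw [LinearMap.range_domRestrict]
    have h3 : finrank ℚ (LinearMap.ker ((dif α).domRestrict (Fix τ))) ≤ Fintype.card R := by
      let ev : LinearMap.ker ((dif α).domRestrict (Fix τ)) →ₗ[ℚ] (R → ℚ) :=
        { toFun := fun f => fun r => f.1.1 (s r)
          map_add' := by intro f g; rfl
          map_smul' := by intro c f; rfl }
      have hinj : Function.Injective ev := by
        rintro ⟨⟨f, hf⟩, hk⟩ ⟨⟨g, hg⟩, hk'⟩ hfg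
        have conv : ∀ (f : D → ℚ) (hf : f ∈ Fix τ),
            (⟨f, hf⟩ : Fix τ) ∈ LinearMap.ker ((dif α).domRestrict (Fix τ)) →
            ∀ d, f (α d) = f d := by
          intro f hf hk d
          rw [LinearMap.mem_ker, LinearMap.domRestrict_apply] at hk
          have := congrFun hk d
          simp only [dif_apply, Pi.zero_apply] at this
          linarith
        apply Subtype.ext
        apply Subtype.ext
        funext d
        have e1 := hτ f hf (conv f hf hk) d (s (reg d)) (hs (reg d)).symm
        have e2 := hτ g hg (conv g hg hk') d (s (reg d)) (hs (reg d)).symm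
        have e3 : f (s (reg d)) = g (s (reg d)) := congrFun hfg (reg d)
        show f d = g d
        rw [e1, e2, e3]
      have := LinearMap.finrank_le_finrank_of_injective hinj
      rwa [Module.finrank_fintype_fun_eq_card] at this
    rw [h2] at h1
    omega
  have k1 := key σ hinv
  have k2 := key (σ * α) (by
    intro f h1 h2 d d'
    refine hinv f ?_ h2 d d'
    intro e
    have := h1 (α e)
    simp only [Perm.mul_apply, hα] at this
    rw [this, h2])
  have hdisj : Submodule.map (dif α) (Fix σ) ⊓ Submodule.map (dif α) (Fix (σ * α)) = ⊥ := by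
    rw [eq_bot_iff]
    rintro b ⟨⟨g, hg, hgb⟩, ⟨h, hh, hhb⟩⟩
    rw [Submodule.mem_bot]
    have := orth hα hg hh
    rw [hgb, hhb] at this
    have h0 := (Finset.sum_eq_zero_iff_of_nonneg (fun d _ => mul_self_nonneg (b d))).1 this
    funext d
    have := h0 d (Finset.mem_univ d)
    simpa using this
  have h4 := Submodule.finrank_sup_add_finrank_inf_eq (Submodule.map (dif α) (Fix σ))
    (Submodule.map (dif α) (Fix (σ * α)))
  rw [hdisj, finrank_bot, add_zero] at h4
  have h5 : Submodule.map (dif α) (Fix σ) ⊔ Submodule.map (dif α) (Fix (σ * α)) ≤ Anti α := by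
    rw [sup_le_iff]
    constructor
    · rintro _ ⟨g, _, rfl⟩; exact dif_anti hα g
    · rintro _ ⟨g, _, rfl⟩; exact dif_anti hα g
  have h6 := Submodule.finrank_mono h5
  have h7 := finrank_Anti α
  omega

/-- the number of orbits of an involution -/
theorem card_add_fixed_le {D : Type} [Fintype D] {α : Perm D} (hα : ∀ d, α (α d) = d)
    (F : Finset D) (hF : ∀ d ∈ F, α d = d) : Fintype.card D + F.card ≤ 2 * numOrbits α := by
  classical
  haveI : Fintype (Quotient (Perm.SameCycle.setoid α)) := Fintype.ofFinite _
  have h1 : ∀ a b : D, α.SameCycle a b → b = a ∨ b = α a := by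
    intro a b h
    have : b ∈ ({a, α a} : Set D) := by
      refine mem_of_sameCycle (T := {a, α a}) ?_ (by simp) h
      rintro x (rfl | rfl)
      · simp
      · simp [hα]
    simpa using this
  let f : D ⊕ F → Quotient (Perm.SameCycle.setoid α) × Bool := fun x => match x with
    | Sum.inl d => (Quotient.mk _ d, decide ((Quotient.mk (Perm.SameCycle.setoid α) d).out = d))
    | Sum.inr d => (Quotient.mk _ d.1, false)
  have hout : ∀ d : D, α.SameCycle (Quotient.mk (Perm.SameCycle.setoid α) d).out d :=
    fun d => Quotient.mk_out (s := Perm.SameCycle.setoid α) d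
  have hinj : Function.Injective f := by
    rintro (d | d) (e | e) h
    · have h2 : (Quotient.mk (Perm.SameCycle.setoid α) d) = Quotient.mk _ e :=
        congrArg Prod.fst h
      have h3 : decide ((Quotient.mk (Perm.SameCycle.setoid α) d).out = d) =
        decide ((Quotient.mk (Perm.SameCycle.setoid α) e).out = e) := congrArg Prod.snd h
      rw [h2] at h3
      have h4 : α.SameCycle (Quotient.mk (Perm.SameCycle.setoid α) e).out d := by
        rw [← h2]; exact hout d
      have h5 := hout e
      generalize (Quotient.mk (Perm.SameCycle.setoid α) e).out = o at h3 h4 h5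
      congr 1
      by_cases ho : o = d
      · have : o = e := by simpa [ho] using h3
        rw [← ho, this]
      · have ho' : ¬ o = e := by simpa [ho] using h3
        rcases h1 _ _ h4 with h6 | h6
        · exact absurd h6.symm ho
        · rcases h1 _ _ h5 with h7 | h7
          · exact absurd h7.symm ho'
          · rw [h6, h7]
    · exfalso
      have h2 : (Quotient.mk (Perm.SameCycle.setoid α) d) = Quotient.mk _ e.1 :=
        congrArg Prod.fst h
      have h3 : decide ((Quotient.mk (Perm.SameCycle.setoid α) d).out = d) = false :=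
        congrArg Prod.snd h
      rw [decide_eq_false_iff_not] at h3
      have h4 := hout d
      rw [h2] at h3 h4
      have h5 := hout e.1
      have h6 : d = e.1 := by
        have : α.SameCycle e.1 d := (h5.symm).trans h4
        rcases h1 _ _ this with h7 | h7
        · exact h7
        · rw [h7, hF _ e.2]
      rcases h1 _ _ (h5.symm) with h7 | h7
      · exact h3 (h7.trans h6.symm)
      · rw [hF _ e.2] at h7
        exact h3 (h7.trans h6.symm)
    · exfalso
      have h2 : (Quotient.mk (Perm.SameCycle.setoid α) e) = Quotient.mk _ d.1 :=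
        (congrArg Prod.fst h).symm
      have h3 : decide ((Quotient.mk (Perm.SameCycle.setoid α) e).out = e) = false :=
        (congrArg Prod.snd h).symm
      rw [decide_eq_false_iff_not] at h3
      have h4 := hout e
      rw [h2] at h3 h4
      have h5 := hout d.1
      have h6 : e = d.1 := by
        have : α.SameCycle d.1 e := (h5.symm).trans h4
        rcases h1 _ _ this with h7 | h7
        · exact h7
        · rw [h7, hF _ d.2]
      rcases h1 _ _ (h5.symm) with h7 | h7
      · exact h3 (h7.trans h6.symm)
      · rw [hF _ d.2] at h7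
        exact h3 (h7.trans h6.symm)
    · have h2 : (Quotient.mk (Perm.SameCycle.setoid α) d.1) = Quotient.mk _ e.1 :=
        congrArg Prod.fst h
      congr 1
      apply Subtype.ext
      rcases h1 _ _ (Quotient.exact h2) with h7 | h7
      · exact h7.symm
      · rw [hF _ d.2] at h7
        exact h7.symm
  have h8 := Fintype.card_le_of_injective f hinj
  rw [Fintype.card_sum, Fintype.card_prod, Fintype.card_bool, Fintype.card_coe] at h8
  rw [numOrbits, Nat.card_eq_fintype_card]
  omega

/-- The first return map of a permutation to a set. -/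
theorem exists_return {D : Type} [Finite D] (ω : Perm D) (K : Set D) :
    ∃ ρ : Perm K, (∀ k : K, ∃ m, 0 < m ∧ (ρ k : D) = (ω ^ m) (k : D) ∧
      ∀ j, 0 < j → j < m → (ω ^ j) (k : D) ∉ K) ∧
      ∀ k k' : K, ω.SameCycle k k' → ρ.SameCycle k k' := by
  classical
  have hex : ∀ k : K, ∃ m, 0 < m ∧ (ω ^ m) (k : D) ∈ K := by
    intro k
    refine ⟨orderOf ω, orderOf_pos ω, ?_⟩
    rw [pow_orderOf_eq_one]
    exact k.2
  let m : K → ℕ := fun k => Nat.find (hex k)
  have hm0 : ∀ k, 0 < m k := fun k => (Nat.find_spec (hex k)).1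
  have hmK : ∀ k : K, (ω ^ m k) (k : D) ∈ K := fun k => (Nat.find_spec (hex k)).2
  have hmin : ∀ (k : K) j, 0 < j → j < m k → (ω ^ j) (k : D) ∉ K :=
    fun k j h1 h2 h3 => Nat.find_min (hex k) h2 ⟨h1, h3⟩
  let r : K → K := fun k => ⟨(ω ^ m k) (k : D), hmK k⟩
  have aux : ∀ k k' : K, m k ≤ m k' → r k = r k' → k = k' := by
    intro k k' hle h
    have h1 : (ω ^ m k) (k : D) = (ω ^ m k') (k' : D) := congrArg Subtype.val h
    have h2 : (k : D) = (ω ^ (m k' - m k)) (k' : D) := by
      have h3 : (ω ^ m k) (k : D) = (ω ^ m k) ((ω ^ (m k' - m k)) (k' : D)) := by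
        rw [h1, ← Perm.mul_apply, ← pow_add]
        congr 2
        omega
      exact (ω ^ m k).injective h3
    rcases Nat.eq_zero_or_pos (m k' - m k) with h3 | h3
    · rw [h3, pow_zero, Perm.one_apply] at h2
      exact Subtype.ext h2
    · exfalso
      have := hm0 k
      refine hmin k' (m k' - m k) h3 (by omega) ?_
      rw [← h2]
      exact k.2
  have hinj : Function.Injective r := by
    intro k k' h
    rcases le_total (m k) (m k') with h1 | h1
    · exact aux k k' h1 h
    · exact (aux k' k h1 h.symm).symm
  have hbij : Function.Bijective r := Finite.injective_iff_bijective.1 hinj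
  refine ⟨Equiv.ofBijective r hbij, fun k => ⟨m k, hm0 k, rfl, hmin k⟩, ?_⟩
  have hmain : ∀ n : ℕ, ∀ k k' : K, (ω ^ n) (k : D) = k' →
      Perm.SameCycle (Equiv.ofBijective r hbij) k k' := by
    intro n
    induction n using Nat.strong_induction_on with
    | _ n ih =>
      intro k k' h
      rcases Nat.eq_zero_or_pos n with h0 | h0
      · subst h0
        rw [pow_zero, Perm.one_apply] at h
        rw [Subtype.ext h]
      · have h1 : m k ≤ n := by
          by_contra hlt
          refine hmin k n h0 (by omega) ?_
          rw [h]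
          exact k'.2
        have h2 := ih (n - m k) (by have := hm0 k; omega) (r k) k' (by
          show (ω ^ (n - m k)) ((ω ^ m k) (k : D)) = k'
          rw [← Perm.mul_apply, ← pow_add, ← h]
          congr 2
          omega)
        refine Perm.SameCycle.trans ?_ h2
        exact Perm.sameCycle_apply_right.2 (Perm.SameCycle.refl _ _)
  intro k k' h
  obtain ⟨i, hi⟩ := h.exists_nat_pow_eq
  exact hmain i k k' hi

/-- Mantel's theorem for symmetric triangle-free relations. -/
theorem mantel {V : Type} [DecidableEq V] (S : Finset V) (P : Finset (V × V))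
    (hsub : ∀ p ∈ P, p.1 ∈ S ∧ p.2 ∈ S) (hsymm : ∀ a b, (a, b) ∈ P → (b, a) ∈ P)
    (htri : ∀ a b c, (a, b) ∈ P → (b, c) ∈ P → (a, c) ∈ P → False) :
    2 * P.card ≤ S.card ^ 2 := by
  classical
  let Γ : SimpleGraph S :=
    { Adj := fun a b => (a.1, b.1) ∈ P
      symm := ⟨fun a b h => hsymm _ _ h⟩
      loopless := ⟨fun a h => htri _ _ _ h h h⟩ }
  have hcf : Γ.CliqueFree (2 + 1) := by
    intro T hT
    rw [SimpleGraph.is3Clique_iff] at hT
    obtain ⟨a, b, c, h1, h2, h3, _⟩ := hT
    exact htri _ _ _ h1 h3 h2
  have h1 := turan_bound Γ (by norm_num) hcf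
  have h2 : P.card ≤ 2 * Γ.edgeFinset.card := by
    rw [← SimpleGraph.dart_card_eq_twice_card_edges, ← Finset.card_univ]
    rw [← Finset.card_attach]
    refine Finset.card_le_card_of_injOn
      (fun p => (⟨(⟨p.1.1, (hsub _ p.2).1⟩, ⟨p.1.2, (hsub _ p.2).2⟩), p.2⟩ : Γ.Dart))
      (fun _ _ => Finset.mem_coe.2 (Finset.mem_univ _)) ?_
    intro p _ q _ h
    apply Subtype.ext
    have h3 := congrArg SimpleGraph.Dart.toProd h
    simp only [Prod.mk.injEq, Subtype.mk.injEq] at h3
    exact Prod.ext h3.1 h3.2
  rw [Fintype.card_coe] at h1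
  have h3 : (2 - 1) * S.card ^ 2 = S.card ^ 2 := by ring
  rw [h3] at h1
  omega

theorem card_le_of_rel {X Y : Type} (s : Finset X) (t : Finset Y) (P : X → Y → Prop)
    (h1 : ∀ p ∈ s, ∃ y ∈ t, P p y) (h2 : ∀ p ∈ s, ∀ q ∈ s, ∀ y, P p y → P q y → p = q) :
    s.card ≤ t.card :=
  Finset.card_le_card_of_forall_subsingleton P h1
    (fun y _ p hp q hq => h2 p hp.1 q hq.1 y hp.2 hq.2)

end Pool.Agent.V11120.Maps
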